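import Pool.Agent.Helper2.BI.St

set_option autoImplicit false

namespace Pool.Agent.Helper42.BI

open Pool.Agent.Helper2.BI
open Finset Filter
open N063b59cf

theorem natLog_le (n : ℕ) (hn : 1 ≤ n) : (Nat.log 2 n : ℝ) ≤ 2 * Real.log n := by
  have h1 : 2 ^ Nat.log 2 n ≤ n := Nat.pow_log_le_self 2 (by omega)
  have h2 : ((2 : ℝ) ^ Nat.log 2 n) ≤ n := by exact_mod_cast h1
  have h3 := Real.log_le_log (by positivity) h2
  rw [Real.log_pow] at h3
  have h4 := Real.log_two_gt_d9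
  have h5 : (0 : ℝ) ≤ Nat.log 2 n := Nat.cast_nonneg _
  nlinarith

theorem ev_log (c r : ℝ) (hc : 0 < c) (hr : 0 < r) :
    ∀ᶠ X : ℕ in atTop, Real.log X ≤ c * (X : ℝ) ^ r := by
  have h := (isLittleO_log_rpow_atTop hr).bound hc
  have h2 := tendsto_natCast_atTop_atTop.eventually h
  filter_upwards [h2] with X hX
  rw [Real.norm_eq_abs, Real.norm_eq_abs, abs_of_nonneg (Real.rpow_nonneg (Nat.cast_nonneg X) r)]
    at hX
  exact (le_abs_self _).trans hX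

theorem ev_rpow (c r : ℝ) (hr : 0 < r) : ∀ᶠ X : ℕ in atTop, c ≤ (X : ℝ) ^ r :=
  ((tendsto_rpow_atTop hr).comp tendsto_natCast_atTop_atTop).eventually_ge_atTop c

theorem log_three : (1 : ℝ) ≤ Real.log 3 := by
  rw [Real.le_log_iff_exp_le (by norm_num)]
  have := Real.exp_one_lt_d9
  linarith

open Classical in
/-- the bad `v` in `(X, 2X]` -/
noncomputable def Bd (ε : ℝ) (X : ℕ) : Finset ℕ := (Ioc X (2 * X)).filter (fun v =>
  ∃ u, LargestPrimeRepeated u v ∧ (v : ℝ) ^ ε < ((v - u : ℕ) : ℝ))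

open Classical in
/-- the bad `v` of type `(i, j)` -/
noncomputable def Tt (X i j : ℕ) : Finset ℕ := (Es X (2 ^ (j + 1))).filter (fun v =>
  ∃ m, (m ∈ Mp X (2 ^ i) (2 ^ j) ∨ m ∈ Mm X (2 ^ i) (2 ^ j)) ∧ m ≤ v ∧ v ≤ m + 2 ^ (j + 2))

open Classical in
theorem Tt_card (X i j : ℕ) : (Tt X i j).card ≤
    ((Mp X (2 ^ i) (2 ^ j)).card + (Mm X (2 ^ i) (2 ^ j)).card) * (2 ^ (j + 2) + 1) := by
  calc (Tt X i j).card ≤ ((Mp X (2 ^ i) (2 ^ j) ∪ Mm X (2 ^ i) (2 ^ j)).biUnion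
        (fun m => Icc m (m + 2 ^ (j + 2)))).card := by
        apply Finset.card_le_card
        intro v hv
        obtain ⟨m, hm, h1, h2⟩ := (Finset.mem_filter.1 hv).2
        rw [Finset.mem_biUnion]
        exact ⟨m, Finset.mem_union.2 hm, Finset.mem_Icc.2 ⟨h1, h2⟩⟩
    _ ≤ (Mp X (2 ^ i) (2 ^ j) ∪ Mm X (2 ^ i) (2 ^ j)).card * (2 ^ (j + 2) + 1) := by
        apply Finset.card_biUnion_le_card_mul
        intro m _
        rw [Nat.card_Icc]
        generalize 2 ^ (j + 2) = q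
        omega
    _ ≤ _ := Nat.mul_le_mul_right _ (Finset.card_union_le _ _)

open Classical in
theorem block (ε : ℝ) (hε0 : 0 < ε) (hε1 : ε ≤ 1 / 100) (hKM : KMc) (hSM : SMc) (hCV : CVc)
    (hNB : NB) : ∃ X₁ : ℕ, 2 ≤ X₁ ∧ ∀ X : ℕ, X₁ ≤ X →
      ((Bd ε X).card : ℝ) ≤ (X : ℝ) ^ (1 - √(2 * ε) + 15 / 4 * ε) := by
  choose Ck hCk0 hCk using hKM
  obtain ⟨C, hC0, hC⟩ := hSM
  obtain ⟨V₀, hV₀⟩ := hCV
  obtain ⟨X₀, hX₀⟩ := hNB ε hε0 hε1 Ck C hCk0 hC0
  have ev := (ev_rpow 12 ε hε0).and (ev_log (1 / 5) (ε / 8) (by norm_num) (by positivity))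
  obtain ⟨X₂, hX₂⟩ := eventually_atTop.1 ev
  refine ⟨max (max V₀ X₀) (max X₂ 3), by omega, ?_⟩
  intro X hX
  have hXV : V₀ ≤ X := by omega
  have hXX : X₀ ≤ X := by omega
  have hX2 : X₂ ≤ X := by omega
  have hX3 : 3 ≤ X := by omega
  obtain ⟨hp12, hlog⟩ := hX₂ X hX2
  have hXr : (3 : ℝ) ≤ X := by exact_mod_cast hX3
  have hX0 : (0 : ℝ) < X := by linarith
  set I : ℕ := Nat.log 2 (2 * X) + 1 with hI
  set A : Finset (ℕ × ℕ) := (range I ×ˢ range I).filter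
    (fun p => p.2 ≤ p.1 ∧ 4 ^ p.1 < 2 * X ∧ (X : ℝ) ^ ε < 2 ^ (p.2 + 2)) with hA
  have hsub : Bd ε X ⊆ A.biUnion (fun p => Tt X p.1 p.2) := by
    intro v hv
    obtain ⟨hv1, u, hu, hvu⟩ := Finset.mem_filter.1 hv
    have hv1' := Finset.mem_Ioc.1 hv1
    have hXv : (X : ℝ) ^ ε ≤ (v : ℝ) ^ ε := by
      apply Real.rpow_le_rpow hX0.le _ hε0.le
      exact_mod_cast hv1'.1.le
    have h12 : (12 : ℝ) < ((v - u : ℕ) : ℝ) := by linarith
    have h12' : 12 ≤ v - u := by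
      have : 12 < v - u := by exact_mod_cast h12
      omega
    obtain ⟨i, j, hji, h4, hvj, hEs, m, hm, hm1, hm2⟩ := hV₀ X hXV v hv1 u hu h12'
    have hi : i < I := by
      have h5 : 2 ^ i ≤ 2 * X := by
        calc 2 ^ i ≤ 4 ^ i := Nat.pow_le_pow_left (by norm_num) i
          _ ≤ 2 * X := h4.le
      have h6 := (Nat.le_log_iff_pow_le (b := 2) (by norm_num) (by omega : 2 * X ≠ 0)).2 h5
      omega
    have h7 : (X : ℝ) ^ ε < 2 ^ (j + 2) := by
      have h8 : ((v - u : ℕ) : ℝ) < 2 ^ (j + 2) := by exact_mod_cast hvj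
      linarith
    rw [Finset.mem_biUnion]
    refine ⟨(i, j), ?_, ?_⟩
    · rw [hA, Finset.mem_filter, Finset.mem_product, Finset.mem_range, Finset.mem_range]
      exact ⟨⟨hi, by simp only; omega⟩, hji, h4, h7⟩
    · exact Finset.mem_filter.2 ⟨hEs, m, hm, hm1, hm2⟩
  have hT : ∀ p ∈ A, ((Tt X p.1 p.2).card : ℝ) ≤ (X : ℝ) ^ (1 - √(2 * ε) + 7 / 2 * ε) := by
    intro p hp
    rw [hA, Finset.mem_filter] at hp
    obtain ⟨-, hji, h4, h7⟩ := hp
    apply hX₀ X hXX p.1 p.2 hji h4 h7 _ (Nat.cast_nonneg _)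
    · intro k hk
      have hH1 : 1 ≤ 2 ^ p.2 := Nat.one_le_two_pow
      have hHP : 2 ^ p.2 ≤ 2 ^ p.1 := Nat.pow_le_pow_right (by norm_num) hji
      obtain ⟨h8, h9⟩ := hCk k X (2 ^ p.1) (2 ^ p.2) (by omega) hH1 hHP hk
      have h10 : ((Tt X p.1 p.2).card : ℝ) ≤
          (((Mp X (2 ^ p.1) (2 ^ p.2)).card : ℝ) + (Mm X (2 ^ p.1) (2 ^ p.2)).card) *
            (2 ^ (p.2 + 2) + 1) := by
        exact_mod_cast Tt_card X p.1 p.2
      push_cast at h8 h9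
      refine h10.trans ?_
      rw [mul_comm]
      apply mul_le_mul_of_nonneg_left _ (by positivity)
      linarith
    · have h8 : ((Tt X p.1 p.2).card : ℝ) ≤ ((Es X (2 ^ (p.2 + 1))).card : ℝ) := by
        exact_mod_cast Finset.card_le_card (Finset.filter_subset _ _)
      have h9 := hC X (2 ^ (p.2 + 1)) (by omega) Nat.one_le_two_pow
      push_cast at h9
      exact h8.trans h9
  have hAc : (A.card : ℝ) ≤ (I : ℝ) * I := by
    have : A.card ≤ I * I := by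
      calc A.card ≤ (range I ×ˢ range I).card := Finset.card_le_card (Finset.filter_subset _ _)
        _ = I * I := by rw [Finset.card_product, Finset.card_range]
    exact_mod_cast this
  have hIle : (I : ℝ) ≤ (X : ℝ) ^ (ε / 8) := by
    have h1 : ((2 * X : ℕ) : ℝ) = 2 * X := by push_cast; ring
    have h2 := natLog_le (2 * X) (by omega)
    rw [h1, Real.log_mul (by norm_num) hX0.ne'] at h2
    have h3 := Real.log_two_lt_d9
    have h4 : 1 ≤ Real.log X := log_three.trans (Real.log_le_log (by norm_num) hXr)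
    have h5 : (I : ℝ) = (Nat.log 2 (2 * X) : ℝ) + 1 := by
      rw [hI]
      push_cast
      ring
    rw [h5]
    linarith
  have hI0 : (0 : ℝ) ≤ I := Nat.cast_nonneg _
  calc ((Bd ε X).card : ℝ) ≤ ((A.biUnion (fun p => Tt X p.1 p.2)).card : ℝ) := by
        exact_mod_cast Finset.card_le_card hsub
    _ ≤ ∑ p ∈ A, ((Tt X p.1 p.2).card : ℝ) := by
        exact_mod_cast Finset.card_biUnion_le
    _ ≤ ∑ _p ∈ A, (X : ℝ) ^ (1 - √(2 * ε) + 7 / 2 * ε) := Finset.sum_le_sum hT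
    _ = (A.card : ℝ) * (X : ℝ) ^ (1 - √(2 * ε) + 7 / 2 * ε) := by
        rw [Finset.sum_const, nsmul_eq_mul]
    _ ≤ ((X : ℝ) ^ (ε / 8) * (X : ℝ) ^ (ε / 8)) * (X : ℝ) ^ (1 - √(2 * ε) + 7 / 2 * ε) := by
        apply mul_le_mul_of_nonneg_right _ (by positivity)
        refine hAc.trans ?_
        exact mul_le_mul hIle hIle hI0 (by positivity)
    _ = (X : ℝ) ^ (1 - √(2 * ε) + 15 / 4 * ε) := by
        rw [← Real.rpow_add hX0, ← Real.rpow_add hX0]
        congr 1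
        ring

open Classical in
/-- **FB** -/
theorem hFB : FB := by
  intro hKM hSM hCV hNB ε hε0 hε1
  obtain ⟨X₁, hX₁2, hX₁⟩ := block ε hε0 hε1 hKM hSM hCV hNB
  set δ : ℝ := 1 - √(2 * ε) + 15 / 4 * ε with hδ
  have hs : √(2 * ε) ≤ 1 := Real.sqrt_le_one.2 (by linarith)
  have hδ0 : 0 < δ := by
    rw [hδ]
    linarith
  have e1 : ∀ᶠ Y : ℕ in atTop, (2 * ((2 * X₁ + 1 : ℕ) : ℝ)) ≤ (Y : ℝ) ^ (δ + ε / 4) :=
    ev_rpow _ _ (by positivity)
  have e2 := ev_log (1 / 6) (ε / 4) (by norm_num) (by positivity)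
  filter_upwards [e1, e2, eventually_ge_atTop 3] with Y hY1 hY2 hY3
  have hYr : (3 : ℝ) ≤ Y := by exact_mod_cast hY3
  have hY0 : (0 : ℝ) < Y := by linarith
  set F : Finset ℕ := range (2 * X₁ + 1) ∪
    ((range (Nat.log 2 Y + 1)).filter (fun s => X₁ ≤ 2 ^ s)).biUnion (fun s => Bd ε (2 ^ s)) with hF
  have hsub : {v : ℕ | v ≤ Y ∧ ∃ u, LargestPrimeRepeated u v ∧
      (v : ℝ) ^ ε < ((v - u : ℕ) : ℝ)} ⊆ (F : Set ℕ) := by
    intro v hv
    obtain ⟨hvY, hbad⟩ := hv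
    rw [Finset.mem_coe, hF, Finset.mem_union, Finset.mem_range, Finset.mem_biUnion]
    by_cases h : v < 2 * X₁ + 1
    · exact Or.inl h
    · right
      have hv1 : v - 1 ≠ 0 := by omega
      set s := Nat.log 2 (v - 1) with hs'
      have h1 : 2 ^ s ≤ v - 1 := Nat.pow_log_le_self 2 hv1
      have h2 : v - 1 < 2 ^ (s + 1) := Nat.lt_pow_succ_log_self (by norm_num) _
      have h3 : 2 ^ (s + 1) = 2 * 2 ^ s := by rw [pow_succ]; ring
      refine ⟨s, ?_, ?_⟩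
      · rw [Finset.mem_filter, Finset.mem_range]
        refine ⟨?_, by omega⟩
        have : s ≤ Nat.log 2 Y := Nat.log_mono_right (by omega)
        omega
      · rw [Bd, Finset.mem_filter, Finset.mem_Ioc]
        exact ⟨⟨by omega, by omega⟩, hbad⟩
  have hcard : (Set.ncard {v : ℕ | v ≤ Y ∧ ∃ u, LargestPrimeRepeated u v ∧
      (v : ℝ) ^ ε < ((v - u : ℕ) : ℝ)} : ℝ) ≤ (F.card : ℝ) := by
    have h1 := Set.ncard_le_ncard hsub (Finset.finite_toSet F)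
    rw [Set.ncard_coe_finset] at h1
    exact_mod_cast h1
  refine hcard.trans ?_
  have hB : ∀ s ∈ (range (Nat.log 2 Y + 1)).filter (fun s => X₁ ≤ 2 ^ s),
      ((Bd ε (2 ^ s)).card : ℝ) ≤ (Y : ℝ) ^ δ := by
    intro s hs1
    rw [Finset.mem_filter, Finset.mem_range] at hs1
    refine (hX₁ (2 ^ s) hs1.2).trans ?_
    apply Real.rpow_le_rpow (Nat.cast_nonneg _) _ hδ0.le
    have h1 : 2 ^ s ≤ 2 ^ Nat.log 2 Y := Nat.pow_le_pow_right (by norm_num) (by omega)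
    have h2 : 2 ^ Nat.log 2 Y ≤ Y := Nat.pow_log_le_self 2 (by omega)
    exact_mod_cast h1.trans h2
  have hL : (Nat.log 2 Y : ℝ) + 1 ≤ 1 / 2 * (Y : ℝ) ^ (ε / 4) := by
    have h1 := natLog_le Y (by omega)
    have h2 : 1 ≤ Real.log Y := log_three.trans (Real.log_le_log (by norm_num) hYr)
    linarith
  have hYd : (Y : ℝ) ^ (δ + ε / 4) = (Y : ℝ) ^ (ε / 4) * (Y : ℝ) ^ δ := by
    rw [← Real.rpow_add hY0]
    congr 1
    ring
  have hfin : (F.card : ℝ) ≤ ((2 * X₁ + 1 : ℕ) : ℝ) + ((Nat.log 2 Y : ℝ) + 1) * (Y : ℝ) ^ δ := by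
    calc (F.card : ℝ) ≤ ((range (2 * X₁ + 1)).card : ℝ) +
          ((((range (Nat.log 2 Y + 1)).filter (fun s => X₁ ≤ 2 ^ s)).biUnion
            (fun s => Bd ε (2 ^ s))).card : ℝ) := by
          exact_mod_cast Finset.card_union_le _ _
      _ ≤ ((2 * X₁ + 1 : ℕ) : ℝ) +
          ∑ s ∈ (range (Nat.log 2 Y + 1)).filter (fun s => X₁ ≤ 2 ^ s),
            ((Bd ε (2 ^ s)).card : ℝ) := by
          rw [Finset.card_range]
          apply add_le_add le_rfl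
          exact_mod_cast Finset.card_biUnion_le
      _ ≤ ((2 * X₁ + 1 : ℕ) : ℝ) +
          ∑ _s ∈ (range (Nat.log 2 Y + 1)).filter (fun s => X₁ ≤ 2 ^ s), (Y : ℝ) ^ δ := by
          apply add_le_add le_rfl
          exact Finset.sum_le_sum hB
      _ ≤ ((2 * X₁ + 1 : ℕ) : ℝ) + ((Nat.log 2 Y : ℝ) + 1) * (Y : ℝ) ^ δ := by
          apply add_le_add le_rfl
          rw [Finset.sum_const, nsmul_eq_mul]
          apply mul_le_mul_of_nonneg_right _ (by positivity)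
          have h1 : ((range (Nat.log 2 Y + 1)).filter (fun s => X₁ ≤ 2 ^ s)).card ≤
              Nat.log 2 Y + 1 := by
            refine (Finset.card_le_card (Finset.filter_subset _ _)).trans ?_
            rw [Finset.card_range]
          exact_mod_cast h1
  have h1 : ((Nat.log 2 Y : ℝ) + 1) * (Y : ℝ) ^ δ ≤
      1 / 2 * (Y : ℝ) ^ (ε / 4) * (Y : ℝ) ^ δ :=
    mul_le_mul_of_nonneg_right hL (by positivity)
  have h2 : (Y : ℝ) ^ (1 - √(2 * ε) + 4 * ε) = (Y : ℝ) ^ (δ + ε / 4) := by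
    congr 1
    rw [hδ]
    ring
  rw [h2]
  rw [hYd] at hY1 ⊢
  linarith

end Pool.Agent.Helper42.BI
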